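import Pool.Agent.Helper33.Stab.TermP

/-! Products of exterior products in a bivariant theory. -/

open Topology Filter Set

noncomputable section

namespace Pool.Agent.Helper8.Stab

open Pool.Agent.Helper1.Stab Pool.Agent.Helper33.Stab
open Pool.Agent.Helper37.Stab (mulB mulB_comm mulB_assoc mulB_one mulB_pre)

theorem mulB_four (R : Biv) {K : LC} (a b a' b' : R.Hom K LC.point) :
    mulB R (mulB R a b) (mulB R a' b') = mulB R (mulB R a a') (mulB R b b') := by
  rw [mulB_assoc, ← mulB_assoc R b a' b', mulB_comm R b a', mulB_assoc R a' b b',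
    ← mulB_assoc R a a' (mulB R b b')]

/-- The product of two exterior products is the exterior product of the products. -/
theorem mulB_ext (G : GBiv) {K L : LC} [CompactSpace K] [CompactSpace L]
    (x x' : G.Hom K LC.point) (y y' : G.Hom L LC.point) :
    mulB G.toBiv (K := K.prod L)
      (G.comp (G.comp (G.tens x L) (G.ltens LC.point y)) (G.J (PMap.ofHomeo (LC.lunit LC.point))))
      (G.comp (G.comp (G.tens x' L) (G.ltens LC.point y'))
        (G.J (PMap.ofHomeo (LC.lunit LC.point)))) =
    G.comp (G.comp (G.tens (mulB G.toBiv x x') L) (G.ltens LC.point (mulB G.toBiv y y')))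
      (G.J (PMap.ofHomeo (LC.lunit LC.point))) := by
  have h1 := mul_pr33 G x y
  have h2 := mul_pr33 G x' y'
  have h3 := mul_pr33 G (mulB G.toBiv x x') (mulB G.toBiv y y')
  have h4 := mulB_pre G.toBiv (PMap.ofCont (K := K.prod L) (L := K) Prod.fst continuous_fst) x x'
  have h5 := mulB_pre G.toBiv (PMap.ofCont (K := K.prod L) (L := L) Prod.snd continuous_snd) y y'
  rw [← h1, ← h2, ← h3, h4, h5]
  exact mulB_four G.toBiv _ _ _ _

/-- the two identifications `pt × pt = pt` agree -/
theorem J_punit (R : Biv) :
    R.J (PMap.ofHomeo (Homeomorph.prodPUnit LC.point : LC.point.prod LC.point ≃ₜ LC.point)) =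
      R.J (PMap.ofHomeo (LC.lunit LC.point)) := by
  congr 1

/-- the exterior product of the units -/
theorem ext_one (R : Biv) (K L : LC) [CompactSpace K] [CompactSpace L] :
    R.comp (R.comp (R.tens (R.J (PMap.toPoint K)) L) (R.ltens LC.point (R.J (PMap.toPoint L))))
      (R.J (PMap.ofHomeo (Homeomorph.prodPUnit LC.point : LC.point.prod LC.point ≃ₜ LC.point))) =
    R.J (PMap.toPoint (K.prod L)) := by
  rw [R.tens_J, Pool.Agent.Helper39.Stab.ltens_J, ← R.J_comp, ← R.J_comp]
  congr 1

end Pool.Agent.Helper8.Stab
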